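import Pool.Agent.N206.CG.Stm

/-!
Project CG: the groups `D n` are perfect, have trivial centre, and `D 0` is finitely generated.
-/

namespace Pool.Agent.N945.CG

open Classical Pool.Agent.N206.CG

theorem map_mem_comm {B D : Type} [Group B] [Group D] (hB : commutator B = ⊤) (f : B →* D) (b : B) :
    f b ∈ commutator D := by
  have h1 : f b ∈ (commutator B).map f := ⟨b, by rw [hB]; trivial, rfl⟩
  rw [commutator_def, Subgroup.map_commutator] at h1
  rw [commutator_def]
  exact Subgroup.commutator_mono le_top le_top h1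

theorem t_PERF {L : Loc} (S : Sys L) : S_PERF S := by
  intro n
  rw [eq_top_iff, ← S.gen n, Subgroup.closure_le]
  rintro d (⟨g, rfl⟩ | ⟨b, rfl⟩)
  · obtain ⟨b, hb⟩ : ∃ b, L.rho n b = g := by
      have h1 : (g : Equiv.Perm (L.E n)) ∈ (L.rho n).range := by
        rw [L.rho_range n]
        exact g.2
      exact h1
    have h2 : ∀ b, L.rho n b ∈ L.P n := by
      intro b
      rw [← L.rho_range n]
      exact ⟨b, rfl⟩
    have h3 := map_mem_comm L.B_perf ((S.rt n).comp ((L.rho n).codRestrict (L.P n) h2)) b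
    have h4 : ((S.rt n).comp ((L.rho n).codRestrict (L.P n) h2)) b = S.rt n g := by
      rw [MonoidHom.comp_apply]
      congr 1
      exact Subtype.ext hb
    rw [h4] at h3
    exact h3
  · exact map_mem_comm L.B_perf (S.sp n) b

theorem t_Z {L : Loc} (S : Sys L) : S_Z S := by
  refine S.faith (fun n => {d | ∀ e, d * e = e * d}) ?_
  intro n d hd
  rw [Set.mem_setOf_eq] at hd
  have h1 : S.root n d = 1 := by
    refine L.fix n _ fun g hg => ?_
    have h2 := congrArg (S.root n) (hd (S.rt n ⟨g, hg⟩))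
    rw [map_mul, map_mul, S.root_rt] at h2
    exact h2
  refine ⟨h1, fun x e => ?_⟩
  have h2 := S.conj_lam n d x e
  rw [hd, mul_assoc, mul_inv_cancel, mul_one, h1, Equiv.Perm.one_apply] at h2
  have h3 := S.lam_inj n x _ _ h2
  rw [eq_mul_inv_iff_mul_eq] at h3
  exact h3.symm

theorem t_FG {L : Loc} (S : Sys L) : S_FG S := by
  obtain ⟨T, hT, hTf⟩ := Group.fg_iff.1 L.B_fg
  refine Group.fg_iff.2 ⟨Set.range (S.rt 0) ∪ (S.sp 0) '' T, ?_, ?_⟩
  · rw [eq_top_iff, ← S.gen 0, Subgroup.closure_le]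
    rintro d (⟨g, rfl⟩ | ⟨b, rfl⟩)
    · exact Subgroup.subset_closure (Or.inl ⟨g, rfl⟩)
    · have h1 : S.sp 0 b ∈ (Subgroup.closure T).map (S.sp 0) := ⟨b, by rw [hT]; trivial, rfl⟩
      rw [MonoidHom.map_closure] at h1
      exact Subgroup.closure_mono Set.subset_union_right h1
  · haveI : Finite (Equiv.Perm (L.E 0)) := inferInstance
    haveI : Finite (L.P 0) := inferInstance
    exact (Set.finite_range _).union (hTf.image _)

end Pool.Agent.N945.CG
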